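import Mathlib

namespace Pool.Agent.Results.MP_1f00fa_co.Fifteen

/-- `f 0, …, f (l-1)` is an induced (monophonic) path -/
def IndPath {V : Type} (G : SimpleGraph V) {l : ℕ} (f : Fin l → V) : Prop :=
  Function.Injective f ∧ ∀ i j, G.Adj (f i) (f j) ↔ ((i : ℕ) + 1 = j ∨ (j : ℕ) + 1 = i)

/-- monophonic position set -/
def MpSet {V : Type} (G : SimpleGraph V) (S : Finset V) : Prop :=
  ∀ (l : ℕ) (f : Fin l → V), IndPath G f → ∀ i j k, i ≠ j → i ≠ k → j ≠ k →
    ¬ (f i ∈ S ∧ f j ∈ S ∧ f k ∈ S)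

lemma three {V : Type} [DecidableEq V] (G : SimpleGraph V) (a b c : V)
    (h : ∀ (l : ℕ) (f : Fin l → V), IndPath G f → ∀ i j k, f i = a → f j = b → f k = c → False) :
    MpSet G {a, b, c} := by
  rintro l f hf i j k h1 h2 h3 ⟨a1, a2, a3⟩
  have n1 := hf.1.ne h1
  have n2 := hf.1.ne h2
  have n3 := hf.1.ne h3
  simp only [Finset.mem_insert, Finset.mem_singleton] at a1 a2 a3
  rcases a1 with a1 | a1 | a1 <;> rcases a2 with a2 | a2 | a2 <;> rcases a3 with a3 | a3 | a3 <;>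
    first
    | exact n1 (a1.trans a2.symm)
    | exact n2 (a1.trans a3.symm)
    | exact n3 (a2.trans a3.symm)
    | (apply h l f hf <;> assumption)

def tb (b1 b2 b3 b4 b5 b6 b7 : Bool) : ZMod 15 → Bool :=
  ![false, b1, b2, b3, b4, b5, b6, b7, b7, b6, b5, b4, b3, b2, b1]

lemma fin : ∀ b1 b2 b3 b4 b5 b6 b7 : Bool,
    (∀ x y, tb b1 b2 b3 b4 b5 b6 b7 x → tb b1 b2 b3 b4 b5 b6 b7 y → ¬ tb b1 b2 b3 b4 b5 b6 b7 (x - y)) →
    (∀ v, v = 0 ∨ tb b1 b2 b3 b4 b5 b6 b7 v ∨
      ∃ x, tb b1 b2 b3 b4 b5 b6 b7 x ∧ tb b1 b2 b3 b4 b5 b6 b7 (x - v)) →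
    ∀ v, tb b1 b2 b3 b4 b5 b6 b7 (v - 5) = tb b1 b2 b3 b4 b5 b6 b7 v := by decide +kernel

theorem result (C : Set (ZMod 15)) (h0 : 0 ∉ C) (hC : ∀ x ∈ C, -x ∈ C) (G : SimpleGraph (ZMod 15))
    (hG : ∀ i j, G.Adj i j ↔ j - i ∈ C) :
    ¬ (IsGreatest {k | ∃ S, MpSet G S ∧ S.card = k} 2 ∧ G.ediam = 2) := by
  classical
  rintro ⟨⟨-, h1⟩, h2⟩
  have no : ∀ a b c, a ≠ b → a ≠ c → b ≠ c → ¬ MpSet G {a, b, c} := by
    intro a b c e1 e2 e3 h
    have := h1 ⟨_, h, rfl⟩
    rw [Finset.card_eq_three.2 ⟨a, b, c, e1, e2, e3, rfl⟩] at this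
    omega
  obtain ⟨b1, b2, b3, b4, b5, b6, b7, e⟩ : ∃ b1 b2 b3 b4 b5 b6 b7, ∀ x,
      x ∈ C ↔ tb b1 b2 b3 b4 b5 b6 b7 x := by
    refine ⟨decide (1 ∈ C), decide (2 ∈ C), decide (3 ∈ C), decide (4 ∈ C), decide (5 ∈ C),
      decide (6 ∈ C), decide (7 ∈ C), ?_⟩
    have s : ∀ x, -x ∈ C ↔ x ∈ C := fun x => ⟨fun h => by simpa using hC _ h, hC x⟩
    intro x
    fin_cases x
    · exact iff_of_false h0 (by simp [tb])
    iterate 7 exact decide_eq_true_iff.symm
    · exact (s 7).trans decide_eq_true_iff.symm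
    · exact (s 6).trans decide_eq_true_iff.symm
    · exact (s 5).trans decide_eq_true_iff.symm
    · exact (s 4).trans decide_eq_true_iff.symm
    · exact (s 3).trans decide_eq_true_iff.symm
    · exact (s 2).trans decide_eq_true_iff.symm
    · exact (s 1).trans decide_eq_true_iff.symm
  have tw : ∀ v, v - 5 ∈ C ↔ v ∈ C := by
    intro v
    rw [e, e, fin _ _ _ _ _ _ _ ?_ ?_]
    · intro x y hx hy hxy
      rw [← e] at hx hy hxy
      have a1 : G.Adj 0 x := by simpa [hG]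
      have a2 : G.Adj 0 y := by simpa [hG]
      have a3 : G.Adj y x := by simpa [hG]
      refine no 0 x y a1.ne a2.ne a3.ne' (three G _ _ _ ?_)
      rintro l f hf i j k e1 rfl rfl
      rw [← e1] at a1 a2
      rw [hf.2] at a1 a2 a3
      omega
    · intro v
      simp only [← e]
      have : G.edist 0 v ≤ 2 := h2 ▸ G.edist_le_ediam
      obtain ⟨p, hp⟩ := SimpleGraph.exists_walk_of_edist_ne_top (G := G) (u := 0) (v := v)
        (ne_top_of_le_ne_top (by simp) this)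
      rw [← hp] at this
      have hl : p.length ≤ 2 := by exact_mod_cast this
      cases p with
      | nil => simp
      | cons a p =>
        cases p with
        | nil => exact Or.inr (Or.inl (by simpa [hG] using a))
        | cons b p =>
          cases p with
          | nil => exact Or.inr (Or.inr ⟨_, by simpa [hG] using a, by simpa [hG] using b.symm⟩)
          | cons c p => simp at hl
  refine no 0 5 10 (by decide) (by decide) (by decide) (three G _ _ _ ?_)
  intro l f hf i j k e1 e2 e3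
  have n1 : i ≠ j := fun c => by rw [c, e2] at e1; exact absurd e1 (by decide)
  have n2 : i ≠ k := fun c => by rw [c, e3] at e1; exact absurd e1 (by decide)
  have n3 : j ≠ k := fun c => by rw [c, e3] at e2; exact absurd e2 (by decide)
  have key : ∀ t, G.Adj (f i) (f t) → False := by
    intro t a1
    have a2 : G.Adj (f j) (f t) := by
      rw [hG, e2, tw]; simpa [hG, e1] using a1
    have a3 : G.Adj (f k) (f t) := by
      rw [hG, e3, show f t - 10 = f t - 5 - 5 by ring, tw, tw]; simpa [hG, e1] using a1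
    rw [hf.2] at a1 a2 a3
    omega
  have := i.2; have := j.2; have := k.2
  by_cases c : (i : ℕ) = 0
  · exact key ⟨1, by omega⟩ ((hf.2 _ _).2 (by simp [c]))
  · exact key ⟨i - 1, by omega⟩ ((hf.2 _ _).2 (by simp; omega))

end Pool.Agent.Results.MP_1f00fa_co.Fifteen
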